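import Pool.Agent.Y164.NZ.Stm2
import Pool.Agent.Y164.SZ.Cla
import Pool.Agent.Y547.SZ.Comb

/-!
The main count for a general property (project NZ).
-/

set_option autoImplicit false
set_option linter.all false

open Polynomial IsDedekindDomain

namespace Pool.Agent.Y86.NZ.Fgen

open Finset Polynomial Filter Topology
open Pool.Agent.Y164.SZ
open Pool.Agent.Y164.NZ (S_FGEN Dif)
open Pool.Agent.Y164.PS (Sf mem_Sf)
open Pool.Agent.Y164.HG (tw)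
open scoped Classical

theorem t : S_FGEN := by
  intro ℓ hfact hl2 F _ _ _ h2 hlk n hn hn3 N hN a hdeg hsq P hP ε hε
  have hℓ : ℓ.Prime := hfact.out
  have hchar : ringChar F ≠ 2 := by
    intro h
    apply h2
    have := ringChar.Nat.cast_ringChar (R := F)
    rw [h] at this
    exact_mod_cast this
  have hl3 : 3 ≤ ℓ := by
    have := hℓ.two_le
    omega
  have hq1 : 1 < Fintype.card F := Fintype.one_lt_card
  have hq : 4 ≤ Fintype.card F := by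
    have := Nat.le_of_dvd (by omega) hlk
    omega
  have hlk0 : ((ℓ : ℕ) : F) ≠ 0 := by
    intro h
    obtain ⟨r, hr⟩ := hlk
    have h1 : ((Fintype.card F - 1 : ℕ) : F) = 0 := by rw [hr, Nat.cast_mul, h, zero_mul]
    rw [Nat.cast_sub hq1.le, FiniteField.cast_card_eq_zero, Nat.cast_one, zero_sub] at h1
    exact one_ne_zero (neg_eq_zero.1 h1)
  have S : SYM0 ℓ F := Pool.Agent.Y37.SZ.t ℓ F hl2 hlk
  have S' : SYM ℓ F := ⟨S, Pool.Agent.Y287.SZ.Chr.t ℓ F hl2 hlk hchar S⟩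
  have H : Geo ℓ a N :=
    ⟨S, Pool.Agent.Y547.SZ.t_comb, hl2, hlk0, hn, hn3, hN, hdeg, hsq⟩
  have e1 : ∀ m, (tw a m).ncard = ((Sf F m).filter (nb (QQ a))).card := by
    intro m
    rw [← Set.ncard_coe_finset]
    congr 1
    ext E
    rw [Finset.mem_coe, mem_filter, mem_Sf]
    show (_ ∧ _ ∧ _ ∧ _) ↔ _
    constructor
    · rintro ⟨a1, a2, a3, a4⟩
      exact ⟨⟨a1, a2, a3⟩, (nb_iff H a1).2 a4⟩
    · rintro ⟨⟨a1, a2, a3⟩, a4⟩
      exact ⟨a1, a2, a3, (nb_iff H a1).1 a4⟩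
  have e2 : ∀ m, ((Sf F m).filter (fun E => nb (QQ a) E ∧ P E)).card ≤
      ({E ∈ tw a m | P E}).ncard := by
    intro m
    rw [← Set.ncard_coe_finset]
    apply Set.ncard_le_ncard
    · intro E hE
      rw [Finset.mem_coe, mem_filter, mem_Sf] at hE
      obtain ⟨⟨a1, a2, a3⟩, a4, a5⟩ := hE
      exact ⟨⟨a1, a2, a3, (nb_iff H a1).1 a4⟩, a5⟩
    · apply Set.Finite.subset (Finset.finite_toSet (Sf F m))
      rintro E ⟨⟨a1, a2, a3, -⟩, -⟩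
      exact mem_Sf.2 ⟨a1, a2, a3⟩
  have hMAIN := Pool.Agent.Y261.SZ.t Pool.Agent.Y290.SZ.t
  have main : ∀ c : ℝ, 0 ≤ c → (∀ σ : Tau a → ZMod ℓ, CellEst (H.dat σ) (QQ a) c) → _ :=
    fun c hc0 hce => hMAIN ℓ F S' hchar hq (SW ℓ n) (Tau a) (QQ a) H.fam P
      (fun σ => H.dat σ) (fun σ => rfl) (fun σ σ' => rfl) ((n : ZMod ℓ) * (N : ZMod ℓ))
      (fun σ => rfl) (fun σ => hP H σ) c hc0 hce
  haveI : Finite (SW ℓ n) := inferInstance
  have hcell : ∀ (Kk : ℕ), Odd Kk → ∀ ε : ℝ, 0 < ε → ∀ σ : Tau a → ZMod ℓ,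
      CellEst (H.dat σ) (QQ a) (cK ℓ Kk - ε) := fun Kk hK ε hε σ =>
    cell_thm ℓ hl2 F (SW ℓ n) (Tau a) (H.dat σ) (H.conn σ) (QQ a) Kk hK ε hε
  obtain ⟨hE1, hE2⟩ := Pool.Agent.Y515.SZ.t ℓ (by omega)
  obtain ⟨κ, hκ⟩ : ∃ κ : ℝ, κ = ∏' i : ℕ, (1 + ((ℓ : ℝ)⁻¹) ^ (i + 1))⁻¹ := ⟨_, rfl⟩
  rw [← hκ] at hE1 hE2 ⊢
  -- the choice of the order of the moments
  have hch : ∀ ε : ℝ, 0 < ε → ∃ Kk : ℕ, Odd Kk ∧ κ - ε ≤ cK ℓ Kk := by
    intro ε hε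
    obtain ⟨K0, hK0⟩ := eventually_atTop.1 (hE1.eventually_const_le (show κ - ε < κ by linarith))
    exact ⟨2 * K0 + 1, ⟨K0, rfl⟩, hK0 _ (by omega)⟩
  by_cases hεκ : κ ≤ ε
  · filter_upwards with m _
    have h3 : (0 : ℝ) ≤ ((tw a m).ncard : ℝ) := Nat.cast_nonneg _
    have h4 : (0 : ℝ) ≤ (({E ∈ tw a m | P E}).ncard : ℝ) := Nat.cast_nonneg _
    nlinarith
  push Not at hεκ
  obtain ⟨Kk, hKo, hK⟩ := hch (ε / 3) (by linarith)
  obtain ⟨-, hmain⟩ := main (cK ℓ Kk - ε / 3) (by linarith) (hcell Kk hKo _ (by linarith))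
  filter_upwards [hmain (ε / 3) (by linarith)] with m hm ho
  rw [e1]
  have h3 : IsUnit ((m : ZMod ℓ) + (n : ZMod ℓ) * (N : ZMod ℓ)) := by
    rw [isUnit_iff_ne_zero]
    intro h
    apply ho
    rw [← ZMod.natCast_eq_zero_iff]
    push_cast
    exact h
  have h4 := (hm h3).trans (show _ ≤ (({E ∈ tw a m | P E}).ncard : ℝ) by
    exact_mod_cast e2 m)
  refine le_trans ?_ h4
  apply mul_le_mul_of_nonneg_right _ (Nat.cast_nonneg _)
  linarith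

end Pool.Agent.Y86.NZ.Fgen
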